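import Pool.Agent.MP_856573_co.H74.Bas

/-! The path theorem in the case that the target sees both sides of the square. -/

namespace Pool.Agent.MP_856573_co.H74

open Set
open Pool.Agent.MP_31805c_co.H47 (Mac)
open Pool.Agent.MP_31805c_co.H93 (Conn)

namespace Zed

variable {V : Type} [Fintype V] [DecidableEq V] {G : SimpleGraph V}

/-- The symmetric description of the situation. -/
structure Cz (G : SimpleGraph V) (U H P Wr : Set V) (t A B a b s0 s1 : V) (AA AB Lp Lq : Set V) :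
    Prop where
  mac : Mac G
  n0 : s0 ∉ U
  n1 : s1 ∉ U
  ss : G.Adj s0 s1
  hp : HP G Lp A b
  hq : HP G Lq B a
  hP : HP G P b a
  ab : a ≠ b
  wr : ∀ u, u ∈ Wr ↔ u ∈ U ∧ u ∉ H ∧ u ≠ a ∧ u ≠ b
  lp : ∀ u ∈ Lp, u ∈ AA ∨ u = b
  lq : ∀ u ∈ Lq, u ∈ AB ∨ u = a
  wa : AA ⊆ Wr
  wb : AB ⊆ Wr
  hU : H ⊆ U
  aU : a ∈ U
  bU : b ∈ U
  aH : a ∉ H
  bH : b ∉ H
  hA : A ∈ AA
  hB : B ∈ AB
  ca : Cn G AA
  cb : Cn G AB
  sp : ∀ u ∈ Lp, G.Adj s0 u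
  sq : ∀ u ∈ Lq, G.Adj s1 u
  sB : G.Adj s0 B
  sA : G.Adj s1 A
  np : ∀ u ∈ U, G.Adj s0 u → u ∈ Lp ∨ u ∈ AB
  nq : ∀ u ∈ U, G.Adj s1 u → u ∈ Lq ∨ u ∈ AA
  cl : ∀ u ∈ H, ∀ x ∈ U, G.Adj u x → x ∈ H ∨ x ∈ Lp ∨ x ∈ Lq
  cH : Cn G H
  tH : t ∈ H
  Ha : SA G H {a}
  Hb : SA G H {b}
  pH : ∀ u ∈ P, u ∈ H ∨ u = a ∨ u = b
  bd : ∀ v ∈ H \ P, (At G (H \ P) P v).ncard + tc G (H \ P) (AA ∪ {s0}) v +
      tc G (H \ P) (AB ∪ {s1}) v ≤ 3 ∧ (v = t → (At G (H \ P) P v).ncard +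
      tc G (H \ P) (AA ∪ {s0}) v + tc G (H \ P) (AB ∪ {s1}) v ≤ 2 ∨ (At G (H \ P) P v).ncard ≤ 1)
  nb : ∀ v ∈ H \ P, (At G (H \ P) (AA ∪ {s0}) v).Nonempty →
    ¬ (At G (H \ P) (AB ∪ {s1}) v).Nonempty
  sep : ¬ Conn G Wr A B

variable {U H P Wr : Set V} {t A B a b s0 s1 : V} {AA AB Lp Lq : Set V}

theorem Cz.symm (c : Cz G U H P Wr t A B a b s0 s1 AA AB Lp Lq) :
    Cz G U H P Wr t B A b a s1 s0 AB AA Lq Lp :=
  { c with
    n0 := c.n1, n1 := c.n0, ss := c.ss.symm, hp := c.hq, hq := c.hp, hP := c.hP.symm,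
    ab := c.ab.symm, wr := fun u => (c.wr u).trans (by tauto), lp := c.lq, lq := c.lp,
    wa := c.wb, wb := c.wa, aU := c.bU, bU := c.aU, aH := c.bH, bH := c.aH, hA := c.hB,
    hB := c.hA, ca := c.cb, cb := c.ca, sp := c.sq, sq := c.sp, sB := c.sA, sA := c.sB,
    np := c.nq, nq := c.np, cl := fun u hu x hx h => by have := c.cl u hu x hx h; tauto,
    Ha := c.Hb, Hb := c.Ha, pH := fun u hu => by have := c.pH u hu; tauto,
    bd := fun v hv => ⟨by have := (c.bd v hv).1; omega,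
      fun e => by have := (c.bd v hv).2 e; omega⟩,
    nb := fun v hv h1 h2 => c.nb v hv h2 h1, sep := fun h => c.sep h.symm }

/-- The part of the ground set that is absorbed by the path from `A` to `b`. -/
def Wd (G : SimpleGraph V) (H P Wr Z : Set V) (A b : V) : Set V :=
  {u | Conn G Wr A u ∨ u = b ∨ (u ∈ H \ P ∧ (At G (H \ P) Z u).Nonempty)}

namespace Cz

variable (c : Cz G U H P Wr t A B a b s0 s1 AA AB Lp Lq)
include c

theorem ua {u : V} (h : u ∈ AA) : Conn G Wr A u := (c.ca A c.hA u h).mono c.wa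

theorem uw {u : V} (h : Conn G Wr A u) : u ∈ Wr := h.mem (c.wa c.hA)

theorem nab {u : V} (h : Conn G Wr A u) (h' : Conn G Wr B u) : False := c.sep (h.trans h'.symm)

theorem wU {u : V} (h : u ∈ Wd G H P Wr (AA ∪ {s0}) A b) : u ∈ U := by
  rcases h with h | rfl | h
  exacts [((c.wr u).1 (c.uw h)).1, c.bU, c.hU h.1.1]

theorem lw {u : V} (h : u ∈ Lp) : u ∈ Wd G H P Wr (AA ∪ {s0}) A b :=
  (c.lp u h).elim (fun h => Or.inl (c.ua h)) fun h => Or.inr (Or.inl h)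

theorem wP {u : V} (h : u ∈ Wd G H P Wr (AA ∪ {s0}) A b) (hP : u ∈ P) : u = b := by
  rcases h with h | h | h
  · have h1 := (c.wr u).1 (c.uw h)
    have h2 := c.pH u hP
    tauto
  · exact h
  · exact absurd hP h.1.2

theorem ww {u : V} (h : u ∈ Wd G H P Wr (AA ∪ {s0}) A b)
    (h' : u ∈ Wd G H P Wr (AB ∪ {s1}) B a) : False := by
  rcases h with h | h | h <;> rcases h' with h' | h' | h'
  · exact c.nab h h'
  · exact ((c.wr u).1 (c.uw h)).2.2.1 h'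
  · exact ((c.wr u).1 (c.uw h)).2.1 h'.1.1
  · exact ((c.wr u).1 (c.symm.uw h')).2.2.2 h
  · exact c.ab (h'.symm.trans h)
  · exact c.bH (h ▸ h'.1.1)
  · exact ((c.wr u).1 (c.symm.uw h')).2.1 h.1.1
  · exact c.aH (h' ▸ h.1.1)
  · exact c.nb u h.1 h.2 h'.2

/-- A neighbour of `H` in the component of `A` lies on the path. -/
theorem ha {u x : V} (h : Conn G Wr A u) (hx : x ∈ H) (e : G.Adj x u) : u ∈ Lp ∧ u ∈ AA := by
  have h1 := (c.wr u).1 (c.uw h)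
  rcases c.cl x hx u h1.1 e with h2 | h2 | h2
  · exact absurd h2 h1.2.1
  · exact ⟨h2, (c.lp u h2).resolve_right h1.2.2.2⟩
  · exact (c.nab h (c.symm.ua ((c.lq u h2).resolve_right h1.2.2.1))).elim

/-- The neighbours of a vertex of the absorbed part. -/
theorem nbr {u x : V} (h : u ∈ Wd G H P Wr (AA ∪ {s0}) A b) (hb : u ≠ b) (hx : x ∈ U)
    (e : G.Adj u x) : x ∈ Wd G H P Wr (AA ∪ {s0}) A b ∨ x ∈ P := by
  by_cases hP : x ∈ P
  · exact Or.inr hP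
  refine Or.inl ?_
  rcases h with h | h | h
  · by_cases hH : x ∈ H
    · exact Or.inr (Or.inr ⟨⟨hH, hP⟩, u, Or.inl (c.ha h hH e.symm).2, x, Conn.refl _ _, e.symm⟩)
    · exact Or.inl (h.trans (Conn.adj e (c.uw h) ((c.wr x).2 ⟨hx, hH,
        fun e => hP (e ▸ c.hP.right), fun e => hP (e ▸ c.hP.left)⟩)))
  · exact absurd h hb
  · rcases c.cl u h.1.1 x hx e with h2 | h2 | h2
    · exact Or.inr (Or.inr ⟨⟨h2, hP⟩, At.conn (Conn.adj e h.1 ⟨h2, hP⟩) ▸ h.2⟩)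
    · exact c.lw h2
    · rcases c.lq x h2 with h3 | h3
      · exact absurd ⟨x, Or.inl h3, u, Conn.refl _ _, e⟩ (c.nb u h.1 h.2)
      · exact absurd (h3 ▸ c.hP.right) hP

/-- The components inside `H` do not change. -/
theorem atH {v : V} (hv : v ∈ H \ P) (_h : (At G (H \ P) (AA ∪ {s0}) v).Nonempty) (X : Set V) :
    At G (Wd G H P Wr (AA ∪ {s0}) A b \ Lp) X v ⊆ At G (H \ P) X v := by
  rintro x ⟨hx, u, h1, h2⟩
  refine ⟨hx, u, conn_closed (W := Wd G H P Wr (AA ∪ {s0}) A b \ Lp) ?_ hv h1, h2⟩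
  intro y hy z hz e
  rcases hz.1 with h3 | h3 | h3
  · exact absurd (c.ha h3 hy.1 e).1 hz.2
  · exact absurd (h3 ▸ c.hp.right) hz.2
  · exact h3.1

theorem atH' {v : V} (hv : v ∈ H \ P) (h : (At G (H \ P) (AA ∪ {s0}) v).Nonempty) (X : Set V) :
    At G (H \ P) X v ⊆ At G (Wd G H P Wr (AA ∪ {s0}) A b \ Lp) X v := by
  rintro x ⟨hx, u, h1, h2⟩
  refine ⟨hx, u, (Conn.comp h1).mono fun y hy => ?_, h2⟩
  have hy' : y ∈ H \ P := Conn.mem hy hv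
  refine ⟨Or.inr (Or.inr ⟨hy', At.conn hy ▸ h⟩), fun h3 => ?_⟩
  rcases c.lp y h3 with h4 | h4
  · exact ((c.wr y).1 (c.wa h4)).2.1 hy'.1
  · exact c.bH (h4 ▸ hy'.1)

/-- The outer attachments of a component inside `H`. -/
theorem oH {v : V} (hv : v ∈ H \ P) (h : (At G (H \ P) (AA ∪ {s0}) v).Nonempty) {O : Set V}
    (hO : ∀ x ∈ O, x = s1 ∨ x ∈ Lq ∨ x ∈ P) :
    At G (Wd G H P Wr (AA ∪ {s0}) A b \ Lp) O v ⊆ At G (H \ P) P v := by
  intro x hx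
  obtain ⟨h1, h2⟩ := c.atH hv h O hx
  rcases hO x h1 with h3 | h3 | h3
  · exact absurd ⟨x, Or.inr h3, h2⟩ (c.nb v hv h)
  · rcases c.lq x h3 with h4 | h4
    · exact absurd ⟨x, Or.inl h4, h2⟩ (c.nb v hv h)
    · exact ⟨h4 ▸ c.hP.right, h2⟩
  · exact ⟨h3, h2⟩

/-- The outer attachments of a component near `A`. -/
theorem oA {v : V} (hv : Conn G Wr A v) (hv' : v ∉ Lp) {O : Set V}
    (hO : ∀ x ∈ O, x = s1 ∨ x ∈ Lq ∨ (x ∈ P ∧ x ≠ b)) :
    At G (Wd G H P Wr (AA ∪ {s0}) A b \ Lp) O v ⊆ {s1, a} := by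
  rintro x ⟨hx, u, h1, h2⟩
  have hu : Conn G Wr A u ∧ u ∉ Lp := by
    refine conn_ind (fun u => Conn G Wr A u ∧ u ∉ Lp) h1 ⟨hv, hv'⟩ fun y _ z hz _ e hy => ⟨?_, hz.2⟩
    rcases hz.1 with h3 | h3 | h3
    · exact h3
    · exact absurd (h3 ▸ c.hp.right) hz.2
    · exact absurd (c.ha hy.1 h3.1.1 e.symm).1 hy.2
  rcases hO x hx with h3 | h3 | h3
  · exact Or.inl h3
  · rcases c.lq x h3 with h4 | h4
    · exact (c.nab (hu.1.trans (Conn.adj h2 (c.uw hu.1) (c.wb h4))) (c.symm.ua h4)).elim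
    · exact Or.inr h4
  · rcases c.pH x h3.1 with h4 | h4 | h4
    · exact absurd (c.ha hu.1 h4 h2.symm).1 hu.2
    · exact Or.inr h4
    · exact absurd h4 h3.2

/-- A component inside `H` has an attachment on the path other than `b`. -/
theorem att {v : V} (hv : v ∈ H \ P) : ∃ x ∈ At G (H \ P) P v, x ≠ b := by
  obtain ⟨u, hu, _, rfl, e⟩ := c.Ha
  by_cases h : ∃ z ∈ H, z ∈ P
  · obtain ⟨z, h1, h2⟩ := h
    obtain ⟨y, x, h3, -, h4, h5, h6⟩ := conn_exit (c.cH v hv.1 z h1) hv.2 h2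
    exact ⟨x, ⟨h5, y, h3, h6⟩, fun e => c.bH (e ▸ h4)⟩
  · have hs : H ⊆ H \ P := fun y hy => ⟨hy, fun h' => h ⟨y, hy, h'⟩⟩
    exact ⟨_, ⟨c.hP.right, u, (c.cH v hv.1 u hu).mono hs, e⟩, c.ab⟩

theorem half (al : StmtAL) (tp : TP V U.ncard) :
    ∃ P1 ⊆ Wd G H P Wr (AA ∪ {s0}) A b, HP G P1 A b ∧
      ∀ Q : Set V, (∀ x, x ∈ Q → x ∈ P1 ∨ x ∈ P ∨ x ∈ Wd G H P Wr (AB ∪ {s1}) B a) → P1 ⊆ Q →
        P ⊆ Q → ∀ v ∈ Wd G H P Wr (AA ∪ {s0}) A b \ P1,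
        (At G (U \ Q) Q v).ncard + tc G (U \ Q) {s0} v + tc G (U \ Q) {s1} v ≤ 3 ∧
        (v = t → (At G (U \ Q) Q v).ncard + tc G (U \ Q) {s0} v + tc G (U \ Q) {s1} v ≤ 2) := by
  obtain ⟨p, k, pp, p0, pk, hLp⟩ := c.hp
  obtain ⟨r, n, pr, r0, rn, hr⟩ := c.hP
  have n1 : 1 ≤ n := Nat.pos_of_ne_zero fun e => c.ab (by rw [← rn, e, r0])
  have hR : ∀ x ∈ r '' Icc 1 n, x ∈ P ∧ x ≠ b := by
    rintro _ ⟨i, hi, rfl⟩
    refine ⟨hr ▸ ⟨i, hi.2, rfl⟩, fun e => ?_⟩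
    have := pr.inj i hi.2 0 (Nat.zero_le _) (e.trans r0.symm)
    have := hi.1
    omega
  have hR' : ∀ x ∈ P, x ≠ b → x ∈ r '' Icc 1 n := by
    rw [hr]
    rintro _ ⟨i, hi, rfl⟩ e
    exact ⟨i, ⟨Nat.pos_of_ne_zero fun z => e (z ▸ r0), hi⟩, rfl⟩
  have qU : ∀ x ∈ Lq, x ∈ U := fun x hx => c.symm.wU (c.symm.lw hx)
  have PU : ∀ x ∈ P, x ∈ U := fun x hx => by
    rcases c.pH x hx with h | rfl | rfl
    exacts [c.hU h, c.aU, c.bU]
  obtain ⟨o, l, po, o0, ol, ho⟩ := ((hp_single s1).join c.hq (disjoint_singleton_left.2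
    fun h => c.n1 (qU _ h)) (c.sq B c.hq.left)).cat (rn ▸ (pr.hp n1 le_rfl).symm) (by
      rintro x (rfl | hx) h
      · exact absurd (PU _ (hR _ h).1) c.n1
      · exact c.symm.wP (c.symm.lw hx) (hR _ h).1)
  have hO : ∀ x ∈ o '' Iic l, x = s1 ∨ x ∈ Lq ∨ (x ∈ P ∧ x ≠ b) := by
    rw [← ho]
    rintro x ((h | h) | h)
    exacts [Or.inl h, Or.inr (Or.inl h), Or.inr (Or.inr (hR x h))]
  have hO' : ∀ x ∈ o '' Iic l, x = s1 ∨ x ∈ Lq ∨ x ∈ P := fun x hx => by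
    have := hO x hx
    tauto
  have PO : ∀ x ∈ P, x ≠ b → x ∈ o '' Iic l := fun x hx e => ho ▸ Or.inr (hR' x hx e)
  set W := Wd G H P Wr (AA ∪ {s0}) A b with hW
  have cas : ∀ v ∈ W \ Lp, Conn G Wr A v ∨
      (v ∈ H \ P ∧ (At G (H \ P) (AA ∪ {s0}) v).Nonempty) := fun v hv => by
    rcases hv.1 with h | h | h
    exacts [Or.inl h, absurd (h ▸ c.hp.right) hv.2, Or.inr h]
  have tW : t ∈ W → t ∈ H \ P ∧ (At G (H \ P) (AA ∪ {s0}) t).Nonempty := by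
    rintro (h | h | h)
    exacts [absurd c.tH ((c.wr t).1 (c.uw h)).2.1, absurd (h ▸ c.tH) c.bH, h]
  have ah : AH G W p k o l {s0} t := by
    refine ⟨c.mac, pp, po, fun i hi => c.lw (hLp ▸ ⟨i, hi, rfl⟩), fun i hi h => ?_,
      fun i hi h => ?_, disjoint_singleton_left.2 fun h => c.n0 (c.wU h), cn_single _,
      fun i hi => sa_single.2 (c.sp _ (hLp ▸ ⟨i, hi, rfl⟩)), sa_single.2 (o0 ▸ c.ss),
      by rw [p0, o0]; exact c.sA.symm, by rw [pk, ol, ← r0]; exact pr.adj 0 n1, fun u hu h => ?_,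
      fun v hv => ?_, fun v hv hb x y hxy hy hx' hy' => ?_, fun ht => ?_, fun ht => Or.inl ?_⟩
    · rcases hO _ ⟨i, hi, rfl⟩ with h1 | h1 | h1
      · exact c.n1 (h1 ▸ c.wU h)
      · exact c.ww h (c.symm.lw h1)
      · exact h1.2 (c.wP h h1.1)
    · rcases hO' _ ⟨i, hi, rfl⟩ with h1 | h1 | h1
      · exact c.ss.ne (h.symm.trans h1)
      · exact c.n0 (h ▸ qU _ h1)
      · exact c.n0 (h ▸ PU _ h1)
    · rcases c.np u (c.wU hu) (sa_single.1 h) with h1 | h1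
      · exact hLp ▸ h1
      · exact (c.ww hu (Or.inl (c.symm.ua h1))).elim
    · rw [← hLp] at hv ⊢
      rcases cas v hv with h | h
      · exact (ncard_le_ncard (c.oA h hv.2 hO) (toFinite _)).trans (ncard_insert_le _ _ |>.trans
          (by rw [ncard_singleton]))
      · have h1 := ncard_le_ncard (c.oH h.1 h.2 hO') (toFinite _)
        rw [← hW] at h1
        have h2 := (c.bd v h.1).1
        rw [tc_pos h.2] at h2
        omega
    · rw [← hLp] at hv hb hx' hy'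
      have hne : o x ≠ o y := fun e => hxy.ne (po.inj x (by omega) y hy e)
      rcases cas v hv with h | h
      · have x0 : x = 0 := by
          rcases c.oA h hv.2 hO hx' with h1 | h1
          · exact po.inj x (by omega) 0 (Nat.zero_le _) (h1.trans o0.symm)
          · rcases c.oA h hv.2 hO hy' with h2 | h2
            · have := po.inj y hy 0 (Nat.zero_le _) (h2.trans o0.symm)
              omega
            · exact absurd (h1.trans h2.symm) hne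
        obtain ⟨z, hz, e⟩ : B ∈ o '' Iic l := ho ▸ Or.inl (Or.inr c.hq.left)
        refine ⟨z, x0 ▸ Nat.pos_of_ne_zero fun z0 => c.n1 ?_, hz, sa_single.2 (e ▸ c.sB)⟩
        rw [← o0, ← z0, e]
        exact qU _ c.hq.left
      · exfalso
        have hb' : b ∈ At G (H \ P) P v := ⟨c.hP.left, (pk ▸ c.atH h.1 h.2 _ hb).2⟩
        have nb : ∀ z ≤ l, o z ≠ b := fun z hz e => by
          rcases hO _ ⟨z, hz, rfl⟩ with h1 | h1 | h1
          · exact c.n1 (h1 ▸ e ▸ c.bU)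
          · exact c.ww (c.lw c.hp.right) (c.symm.lw (e ▸ h1))
          · exact h1.2 e
        have h1 : ({b, o x, o y} : Set V) ⊆ At G (H \ P) P v := by
          rintro _ (rfl | rfl | rfl)
          exacts [hb', c.oH h.1 h.2 hO' hx', c.oH h.1 h.2 hO' hy']
        have h2 := ncard_le_ncard h1 (toFinite _)
        rw [ncard_eq_three.2 ⟨b, o x, o y, (nb x (by omega)).symm, (nb y hy).symm, hne, rfl⟩] at h2
        have h3 := (c.bd v h.1).1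
        rw [tc_pos h.2] at h3
        omega
    · rw [← hLp]
      have h := tW ht.1
      have h1 := ncard_le_ncard (c.oH h.1 h.2 hO') (toFinite _)
      rw [← hW] at h1
      have h2 := (c.bd t h.1).2 rfl
      rw [tc_pos h.2] at h2
      omega
    · rw [← hLp]
      have h := tW ht
      obtain ⟨x, hx, e⟩ := c.att h.1
      refine ⟨fun h1 => ?_, x, c.atH' h.1 h.2 _ ⟨PO x hx.1 e, hx.2⟩⟩
      rcases c.lp t h1 with h2 | h2
      · exact ((c.wr t).1 (c.wa h2)).2.1 c.tH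
      · exact c.bH (h2 ▸ c.tH)
  obtain ⟨P1, h1, h2, h3⟩ := al V G W p k o l {s0} t _ tp (ncard_lt_ncard ⟨fun _ => c.wU,
    fun h => c.ww (h c.aU) (Or.inr (Or.inl rfl))⟩ (toFinite _)) ah
  rw [p0, pk] at h2
  refine ⟨P1, h1, h2, fun Q q1 q2 q3 v hv => ?_⟩
  have sub : W \ P1 ⊆ U \ Q := fun u hu => ⟨c.wU hu.1, fun h => by
    rcases q1 u h with h | h | h
    exacts [hu.2 h, hu.2 (c.wP hu.1 h ▸ h2.right), c.ww hu.1 h]⟩
  have e : ∀ X, At G (U \ Q) X v = At G (W \ P1) X v := fun X =>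
    At.closed sub (fun y hy z hz e => ⟨(c.nbr hy.1 (fun e => hy.2 (e ▸ h2.right)) hz.1 e).resolve_right
      fun h => hz.2 (q3 h), fun h => hz.2 (q2 h)⟩) hv
  have QU : ∀ x ∈ Q, x ∈ U := fun x h => by
    rcases q1 x h with h | h | h
    exacts [c.wU (h1 h), PU x h, c.symm.wU h]
  have k1 : At G (W \ P1) Q v ∪ At G (W \ P1) {s1} v ⊆
      At G (W \ P1) P1 v ∪ At G (W \ P1) (o '' Iic l) v := by
    rintro x (⟨hx, u, h4, h5⟩ | ⟨rfl, h4⟩)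
    · have hu : u ∈ W \ P1 := h4.mem hv
      by_cases h6 : x ∈ P1
      · exact Or.inl ⟨h6, u, h4, h5⟩
      rcases c.nbr hu.1 (fun e => hu.2 (e ▸ h2.right)) (QU x hx) h5 with h7 | h7
      · exact absurd hx (sub ⟨h7, h6⟩).2
      · exact Or.inr ⟨PO x h7 fun e => h6 (e ▸ h2.right), u, h4, h5⟩
    · exact Or.inr ⟨⟨0, Nat.zero_le l, o0⟩, h4⟩
  have k2 := (ncard_le_ncard k1 (toFinite _)).trans (ncard_union_le _ _)
  have hd : Disjoint (At G (W \ P1) Q v) (At G (W \ P1) {s1} v) :=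
    disjoint_left.2 fun x h h' => c.n1 (h'.1 ▸ QU x h.1)
  rw [ncard_union_eq hd (toFinite _) (toFinite _), ← tc_single] at k2
  have k3 : ∀ X, tc G (U \ Q) X v = tc G (W \ P1) X v := fun X => by
    unfold tc
    rw [e]
  rw [e, k3, k3]
  exact ⟨by have := (h3 v hv).1; omega, fun ht => by have := (h3 v hv).2 ht; omega⟩

theorem good (al : StmtAL) (tp : TP V U.ncard) : Good G U A B {s0} {s1} {s1} t := by
  obtain ⟨P1, a1, a2, a3⟩ := c.half al tp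
  obtain ⟨P2, b1, b2, b3⟩ := c.symm.half al tp
  have PU : ∀ x ∈ P, x ∈ U := fun x hx => by
    rcases c.pH x hx with h | rfl | rfl
    exacts [c.hU h, c.aU, c.bU]
  refine ⟨P1 ∪ P ∪ P2, ?_, (a2.cat c.hP fun x h h' => c.wP (a1 h) h').cat b2.symm ?_, ?_⟩
  · rintro x ((h | h) | h)
    exacts [c.wU (a1 h), PU x h, c.symm.wU (b1 h)]
  · rintro x (h | h) h'
    exacts [(c.ww (a1 h) (b1 h')).elim, c.symm.wP (b1 h') h]
  set Q := P1 ∪ P ∪ P2 with hQ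
  have q1 : P1 ⊆ Q := fun _ h => Or.inl (Or.inl h)
  have q2 : P ⊆ Q := fun _ h => Or.inl (Or.inr h)
  have q3 : P2 ⊆ Q := fun _ h => Or.inr h
  intro v hv
  have z : tc G (U \ Q) ({s1} \ {s1}) v = 0 := tc_neg fun ⟨_, h, _⟩ => h.2 h.1
  unfold cnt
  rw [z, add_zero]
  by_cases h1 : v ∈ Wd G H P Wr (AA ∪ {s0}) A b
  · have := a3 Q (by
      rintro x ((h | h) | h)
      exacts [Or.inl h, Or.inr (Or.inl h), Or.inr (Or.inr (b1 h))]) q1 q2 v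
      ⟨h1, fun h => hv.2 (q1 h)⟩
    exact ⟨this.1, fun e => Or.inl (this.2 e)⟩
  by_cases h2 : v ∈ Wd G H P Wr (AB ∪ {s1}) B a
  · have := b3 Q (by
      rintro x ((h | h) | h)
      exacts [Or.inr (Or.inr (a1 h)), Or.inr (Or.inl h), Or.inl h]) q3 q2 v
      ⟨h2, fun h => hv.2 (q3 h)⟩
    exact ⟨by have := this.1; omega, fun e => Or.inl (by have := this.2 e; omega)⟩
  -- the component of `v` avoids both absorbed parts
  have out : ∀ u, Conn G (U \ Q) v u → u ∈ U \ Q ∧ u ∉ Wd G H P Wr (AA ∪ {s0}) A b ∧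
      u ∉ Wd G H P Wr (AB ∪ {s1}) B a := fun u hu => by
    refine conn_ind (fun u => u ∈ U \ Q ∧ u ∉ Wd G H P Wr (AA ∪ {s0}) A b ∧
      u ∉ Wd G H P Wr (AB ∪ {s1}) B a) hu ⟨hv, h1, h2⟩ fun y hy z hz _ e h => ⟨hz, fun h' => ?_,
        fun h' => ?_⟩
    · exact (c.nbr h' (fun e => hz.2 (q2 (e ▸ c.hP.left))) hy.1 e.symm).elim h.2.1
        fun h'' => hy.2 (q2 h'')
    · exact (c.symm.nbr h' (fun e => hz.2 (q2 (e ▸ c.hP.right))) hy.1 e.symm).elim h.2.2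
        fun h'' => hy.2 (q2 h'')
  have t0 : tc G (U \ Q) {s0} v = 0 := tc_neg (by
    rintro ⟨_, rfl, u, h3, h4⟩
    obtain ⟨h5, h6, h7⟩ := out u h3
    exact (c.np u h5.1 h4.symm).elim (fun h => h6 (c.lw h)) fun h => h7 (Or.inl (c.symm.ua h)))
  have t1 : tc G (U \ Q) {s1} v = 0 := tc_neg (by
    rintro ⟨_, rfl, u, h3, h4⟩
    obtain ⟨h5, h6, h7⟩ := out u h3
    exact (c.nq u h5.1 h4.symm).elim (fun h => h7 (c.symm.lw h)) fun h => h6 (Or.inl (c.ua h)))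
  have hP : ∀ x ∈ At G (U \ Q) Q v, x ∈ P := by
    rintro x ⟨hx, u, h3, h4⟩
    obtain ⟨h5, h6, h7⟩ := out u h3
    by_contra h8
    rcases hx with (h | h) | h
    · exact (c.nbr (a1 h) (fun e => h8 (e ▸ c.hP.left)) h5.1 h4.symm).elim h6 fun h => h5.2 (q2 h)
    · exact h8 h
    · exact (c.symm.nbr (b1 h) (fun e => h8 (e ▸ c.hP.right)) h5.1 h4.symm).elim h7
        fun h => h5.2 (q2 h)
  rw [t0, t1]
  have stay : ∀ y z, Conn G (U \ Q) v y → Conn G (U \ Q) v z → G.Adj y z → y ∈ H → z ∈ H :=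
    fun y z hy hz e h => by
      obtain ⟨h5, h6, h7⟩ := out z hz
      rcases c.cl y h z h5.1 e with h | h | h
      exacts [h, absurd (c.lw h) h6, absurd (c.symm.lw h) h7]
  by_cases h3 : v ∈ H
  · have hv' : v ∈ H \ P := ⟨h3, fun h => hv.2 (q2 h)⟩
    have h4 : At G (U \ Q) Q v ⊆ At G (H \ P) P v := by
      rintro x hx
      obtain ⟨-, u, h5, h6⟩ := id hx
      refine ⟨hP x hx, u, (conn_ind (fun u => u ∈ H \ P ∧ Conn G (H \ P) v u) h5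
        ⟨hv', Conn.refl _ _⟩ fun y hy z hz h7 e h => ?_).2, h6⟩
      have h8 : z ∈ H \ P := ⟨stay y z h7 (h7.trans (Conn.adj e hy hz)) e h.1.1,
        fun h => hz.2 (q2 h)⟩
      exact ⟨h8, h.2.trans (Conn.adj e h.1 h8)⟩
    have h5 := ncard_le_ncard h4 (toFinite _)
    exact ⟨by have := (c.bd v hv').1; omega, fun e => by have := (c.bd v hv').2 e; omega⟩
  · have h4 : At G (U \ Q) Q v ⊆ {a, b} := by
      rintro x hx
      obtain ⟨-, u, h5, h6⟩ := id hx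
      rcases c.pH x (hP x hx) with h | h
      · have hu : u ∉ H := conn_ind (fun u => u ∉ H) h5 h3 fun y hy z hz h7 e h h' =>
          h (stay z y (h7.trans (Conn.adj e hy hz)) h7 e.symm h')
        obtain ⟨h7, h8, h9⟩ := out u h5
        rcases c.cl x h u h7.1 h6.symm with h | h | h
        exacts [absurd h hu, absurd (c.lw h) h8, absurd (c.symm.lw h) h9]
      · exact h
    have h5 := (ncard_le_ncard h4 (toFinite _)).trans_eq (ncard_pair c.ab)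
    exact ⟨by omega, fun _ => Or.inl (by omega)⟩

end Cz

/-- A common inner vertex of the two boundary paths separates the ends. -/
theorem cutv {q : ℕ → V} {m y : ℕ} (mac : Mac G) (n0 : s0 ∉ U) (n1 : s1 ∉ U) (ss : G.Adj s0 s1)
    (pq : Pa G q m) (qU : ∀ i ≤ m, q i ∈ U) (sq : ∀ i ≤ m, G.Adj s1 (q i))
    (sA : G.Adj s0 (q 0)) (sB : G.Adj s0 (q m)) (y0 : 0 < y) (ym : y < m) (sc : G.Adj s0 (q y)) :
    ¬ Conn G (U \ {q y}) (q 0) (q m) := fun h => by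
  have hm : ∀ i ∈ Ioc y m, i ≤ m := fun i hi => hi.2
  have e0 : q 0 ∉ q '' Ioc y m := fun h => by
    have := ((pq.mem hm (Nat.zero_le m)).1 h).1
    omega
  have em : q m ∈ q '' Ioc y m := ⟨m, ⟨ym, le_rfl⟩, rfl⟩
  have lo : ∀ i < y, q i ∈ (U \ {q y}) \ q '' Ioc y m := fun i hi => by
    refine ⟨⟨qU i (by omega), fun e => ?_⟩, fun h => ?_⟩
    · have := pq.inj i (by omega) y ym.le e
      omega
    · have := ((pq.mem hm (show i ≤ m by omega)).1 h).1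
      omega
  have sub : ∀ u, Conn G ((U \ {q y}) \ q '' Ioc y m) (q 0) u → u ∈ (U \ {q y}) \ q '' Ioc y m :=
    fun u hu => hu.mem (lo 0 y0)
  have hi : ∀ u ∈ q '' Ioc y m, u ∈ U := by
    rintro _ ⟨i, hi, rfl⟩
    exact qU i hi.2
  obtain ⟨u, w, h1, -, -, h2, h3⟩ := conn_exit h e0 em
  refine k5 mac {u | Conn G ((U \ {q y}) \ q '' Ioc y m) (q 0) u} (q '' Ioc y m) {q y} {s0} {s1}
    (cn_comp _ _) (pq.cn ordConnected_Ioc hm) (cn_single _) (cn_single _) (cn_single _)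
    (disjoint_left.2 fun u hu => (sub u hu).2) (disjoint_left.2 fun u hu => (sub u hu).1.2)
    (disjoint_singleton_right.2 fun h => n0 (sub _ h).1.1)
    (disjoint_singleton_right.2 fun h => n1 (sub _ h).1.1)
    (disjoint_singleton_right.2 fun h => lt_irrefl _ ((pq.mem hm ym.le).1 h).1)
    (disjoint_singleton_right.2 fun h => n0 (hi _ h))
    (disjoint_singleton_right.2 fun h => n1 (hi _ h))
    (disjoint_singleton.2 fun e => n0 (e ▸ qU y ym.le))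
    (disjoint_singleton.2 fun e => n1 (e ▸ qU y ym.le)) (disjoint_singleton.2 ss.ne)
    ⟨u, h1, w, h2, h3⟩ ⟨q (y - 1), pq.conn (Nat.zero_le _) (by omega)
      fun i _ hi => lo i (by omega), _, rfl, ?_⟩
    ⟨_, Conn.refl _ _, _, rfl, sA.symm⟩ ⟨_, Conn.refl _ _, _, rfl, (sq 0 (Nat.zero_le _)).symm⟩
    ⟨_, ⟨y + 1, ⟨by omega, ym⟩, rfl⟩, _, rfl, (pq.adj y ym).symm⟩ ⟨_, em, _, rfl, sB.symm⟩
    ⟨_, em, _, rfl, (sq m le_rfl).symm⟩ (sa_single.2 sc.symm) (sa_single.2 (sq y ym.le).symm)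
    (sa_single.2 ss)
  have := pq.adj (y - 1) (by omega)
  rwa [show y - 1 + 1 = y by omega] at this

/-- A component inside `H` does not see both corners. -/
theorem nbL {U' Z0 Z1 : Set V} {v : V} (fr : Fr G U' b a Z0 Z1 Z1) (hP : HP G P b a) (PU : P ⊆ U')
    (HU : H ⊆ U') (aH : a ∉ H) (bH : b ∉ H) (cH : Cn G H) (Ha : SA G H {a}) (Hb : SA G H {b})
    (hv : v ∈ H \ P) (bd : (At G (H \ P) P v).ncard + tc G (H \ P) Z0 v + tc G (H \ P) Z1 v ≤ 3)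
    (h0 : (At G (H \ P) Z0 v).Nonempty) (h1 : (At G (H \ P) Z1 v).Nonempty) : False := by
  by_cases h : ∃ z ∈ H, z ∈ P
  · obtain ⟨z0, h2, h3⟩ := h
    obtain ⟨y, z, h4, -, h5, h6, h7⟩ := conn_exit (cH v hv.1 z0 h2) hv.2 h3
    obtain ⟨r, n, pr, r0, rn, rfl⟩ := hP
    obtain ⟨e, he, rfl⟩ := h6
    have he' : e ≤ n := he
    have e0 : 0 < e := Nat.pos_of_ne_zero fun z => bH (by rwa [z, r0] at h5)
    have en : e < n := lt_of_le_of_ne he' fun z => aH (by rwa [z, rn] at h5)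
    have m1 : ∀ i ∈ Iio e, i ≤ n := fun i hi => by
      have : i < e := hi
      omega
    have m2 : ∀ i ∈ Ioc e n, i ≤ n := fun i hi => hi.2
    have s1 : r '' Iio e ⊆ r '' Iic n := image_mono m1
    have s2 : r '' Ioc e n ⊆ r '' Iic n := image_mono m2
    have s3 : {u | Conn G (H \ r '' Iic n) v u} ⊆ H \ r '' Iic n := fun u hu => Conn.mem hu hv
    have s4 : ({r e} : Set V) ⊆ r '' Iic n := singleton_subset_iff.2 ⟨e, he, rfl⟩
    have s5 : {u | Conn G (H \ r '' Iic n) v u} ⊆ U' := fun u hu => HU (s3 hu).1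
    have b1 : ({b} : Set V) ⊆ r '' Iio e := singleton_subset_iff.2 ⟨0, e0, r0⟩
    have a2 : ({a} : Set V) ⊆ r '' Ioc e n := singleton_subset_iff.2 ⟨n, ⟨en, le_rfl⟩, rn⟩
    obtain ⟨x0, k1, u0, k2, k3⟩ := h0
    obtain ⟨x1, k4, u1, k5, k6⟩ := h1
    refine k33 fr.mac Z0 Z1 {r e} (r '' Iio e) (r '' Ioc e n) {u | Conn G (H \ r '' Iic n) v u}
      fr.c0 fr.c1 (cn_single _) (pr.cn ordConnected_Iio m1) (pr.cn ordConnected_Ioc m2)
      (cn_comp _ _) fr.d01 (fr.d0.mono_right (s4.trans PU)) (fr.d1.mono_right (s4.trans PU))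
      (pr.disj m1 m2 fun i hi hi' => lt_asymm hi hi'.1)
      (disjoint_left.2 fun u hu hu' => (s3 hu').2 (s1 hu))
      (disjoint_left.2 fun u hu hu' => (s3 hu').2 (s2 hu))
      (fr.d0.mono_right (s1.trans PU)) (fr.d0.mono_right (s2.trans PU)) (fr.d0.mono_right s5)
      (fr.d1.mono_right (s1.trans PU)) (fr.d1.mono_right (s2.trans PU)) (fr.d1.mono_right s5)
      (disjoint_singleton_left.2 fun h => lt_irrefl e ((pr.mem m1 he').1 h))
      (disjoint_singleton_left.2 fun h => lt_irrefl e ((pr.mem m2 he').1 h).1)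
      (disjoint_singleton_left.2 fun h => (s3 h).2 ⟨e, he, rfl⟩)
      (fr.a0.mono Subset.rfl b1) (fr.b0.mono Subset.rfl a2) ⟨x0, k1, u0, k2, k3.symm⟩
      (fr.a1.mono Subset.rfl b1) (fr.b2.mono Subset.rfl a2) ⟨x1, k4, u1, k5, k6.symm⟩
      ⟨_, rfl, _, ⟨e - 1, show e - 1 < e by omega, rfl⟩, ?_⟩
      ⟨_, rfl, _, ⟨e + 1, ⟨by omega, en⟩, rfl⟩, pr.adj e en⟩ ⟨_, rfl, y, h4, h7.symm⟩
    have := pr.adj (e - 1) (by omega)
    rw [show e - 1 + 1 = e by omega] at this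
    exact this.symm
  · have hs : H ⊆ H \ P := fun y hy => ⟨hy, fun h' => h ⟨y, hy, h'⟩⟩
    obtain ⟨u, hu, _, rfl, e⟩ := Ha
    obtain ⟨w, hw, _, rfl, e'⟩ := Hb
    have h2 := ncard_le_ncard (insert_subset (show _ ∈ At G (H \ P) P v from
      ⟨hP.left, w, (cH v hv.1 w hw).mono hs, e'⟩) (singleton_subset_iff.2
      (show _ ∈ At G (H \ P) P v from ⟨hP.right, u, (cH v hv.1 u hu).mono hs, e⟩))) (toFinite _)
    rw [ncard_pair fr.ne] at h2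
    rw [tc_pos h0, tc_pos h1] at bd
    omega

end Zed

open Zed in
theorem zed : StmtZ := by
  classical
  intro al V _ _ G U A B s0 s1 t p k i q m j tp fr bp bq tU tP tQ h0 h1
  have sp : ∀ x ≤ k, G.Adj s0 (p x) := fun x hx =>
    (le_total x i).elim (bp.l x) fun h => bp.r x h hx
  have sq : ∀ y ≤ m, G.Adj s1 (q y) := fun y hy =>
    (le_total y j).elim (bq.l y) fun h => bq.r y h hy
  have n0 : s0 ∉ U := disjoint_singleton_left.1 fr.d0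
  have n1 : s1 ∉ U := disjoint_singleton_left.1 fr.d1
  have ss : G.Adj s0 s1 := sa_single.1 fr.e1
  have pp := bp.pa
  have pq := bq.pa
  have p0 := bp.q0
  have pk := bp.qm
  have q0 := bq.q0
  have qm := bq.qm
  set H := {u | Conn G (U \ (p '' Iic k ∪ q '' Iic m)) t u} with hH
  have tW : t ∈ U \ (p '' Iic k ∪ q '' Iic m) := ⟨tU, fun h => h.elim tP tQ⟩
  have HW : ∀ u ∈ H, u ∈ U \ (p '' Iic k ∪ q '' Iic m) := fun u hu => Conn.mem hu tW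
  have pH : ∀ x ≤ k, p x ∉ H := fun x hx h => (HW _ h).2 (Or.inl ⟨x, hx, rfl⟩)
  have qH : ∀ y ≤ m, q y ∉ H := fun y hy h => (HW _ h).2 (Or.inr ⟨y, hy, rfl⟩)
  have cH : Cn G H := cn_comp _ _
  have e1 : ∃ x, x ≤ k ∧ p x ∉ q '' Iic m ∧ SA G H {p x} := by
    obtain ⟨_, rfl, u, h2, h3⟩ := h0
    obtain ⟨x, hx, rfl, -⟩ := bp.l' u (h2.mem ⟨tU, tQ⟩).1 h3.symm
    obtain ⟨y, _, h4, -, h5, ⟨z, hz, rfl⟩, h6⟩ := conn_exit h2 tP ⟨x, hx, rfl⟩
    have hs : (U \ q '' Iic m) \ p '' Iic k ⊆ U \ (p '' Iic k ∪ q '' Iic m) :=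
      fun w hw => ⟨hw.1.1, fun h => h.elim hw.2 hw.1.2⟩
    exact ⟨z, hz, h5.2, y, h4.mono hs, _, rfl, h6⟩
  have e2 : ∃ y, y ≤ m ∧ q y ∉ p '' Iic k ∧ SA G H {q y} := by
    obtain ⟨_, rfl, u, h2, h3⟩ := h1
    obtain ⟨x, hx, rfl, -⟩ := bq.l' u (h2.mem ⟨tU, tP⟩).1 h3.symm
    obtain ⟨y, _, h4, -, h5, ⟨z, hz, rfl⟩, h6⟩ := conn_exit h2 tQ ⟨x, hx, rfl⟩
    have hs : (U \ p '' Iic k) \ q '' Iic m ⊆ U \ (p '' Iic k ∪ q '' Iic m) :=
      fun w hw => ⟨hw.1.1, fun h => h.elim hw.1.2 hw.2⟩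
    exact ⟨z, hz, h5.2, y, h4.mono hs, _, rfl, h6⟩
  obtain ⟨β, ⟨bk, bQ, Hb⟩, bmax⟩ : ∃ β, (β ≤ k ∧ p β ∉ q '' Iic m ∧ SA G H {p β}) ∧
      ∀ x, x ≤ k → p x ∉ q '' Iic m → SA G H {p x} → x ≤ β := by
    obtain ⟨x, hx, h2⟩ := e1
    exact ⟨_, ⟨Nat.findGreatest_le k, Nat.findGreatest_spec
      (P := fun x => p x ∉ q '' Iic m ∧ SA G H {p x}) hx h2⟩,
      fun y hy h3 h4 => Nat.le_findGreatest hy ⟨h3, h4⟩⟩
  obtain ⟨α, ⟨am, aP, Ha⟩, amin⟩ : ∃ α, (α ≤ m ∧ q α ∉ p '' Iic k ∧ SA G H {q α}) ∧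
      ∀ y, y ≤ m → q y ∉ p '' Iic k → SA G H {q y} → α ≤ y :=
    ⟨_, Nat.find_spec e2, fun y h2 h3 h4 => Nat.find_min' e2 ⟨h2, h3, h4⟩⟩
  have b0 : 0 < β := Nat.pos_of_ne_zero fun z => bQ ⟨0, Nat.zero_le m, by rw [z, p0, q0]⟩
  have bk' : β < k := lt_of_le_of_ne bk fun z => bQ ⟨m, le_refl m, by rw [z, pk, qm]⟩
  have a0 : 0 < α := Nat.pos_of_ne_zero fun z => aP ⟨0, Nat.zero_le k, by rw [z, p0, q0]⟩
  have am' : α < m := lt_of_le_of_ne am fun z => aP ⟨k, le_refl k, by rw [z, pk, qm]⟩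
  have ab : q α ≠ p β := fun e => aP ⟨β, bk, e.symm⟩
  have thru : ∀ W : Set V, H ⊆ W → q α ∈ W → p β ∈ W → Conn G W (q α) (p β) := by
    intro W h2 h3 h4
    obtain ⟨u, hu, _, rfl, e⟩ := Ha
    obtain ⟨w, hw, _, rfl, e'⟩ := Hb
    exact (Conn.adj e.symm h3 (h2 hu)).trans (((cH u hu w hw).mono h2).trans
      (Conn.adj e' (h2 hw) h4))
  have cut : ∀ x ≤ k, ∀ y, 0 < y → y < m → p x = q y → ¬ Conn G (U \ {q y}) A B :=
    fun x hx y y0 ym e => by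
      have := cutv fr.mac n0 n1 ss pq bq.sub sq (by rw [q0, ← p0]; exact sp 0 (Nat.zero_le k))
        (by rw [qm, ← pk]; exact sp k le_rfl) y0 ym (e ▸ sp x hx)
      rwa [q0, qm] at this
  have cp : ∀ x ≤ k, ∀ x' ≤ k, x' ≠ x → p x' ∈ U \ {p x} := fun x hx x' hx' e =>
    ⟨bp.sub x' hx', fun e' => e (pp.inj x' hx' x hx e')⟩
  have cq : ∀ y ≤ m, ∀ y' ≤ m, y' ≠ y → q y' ∈ U \ {q y} := fun y hy y' hy' e =>
    ⟨bq.sub y' hy', fun e' => e (pq.inj y' hy' y hy e')⟩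
  have cH' : ∀ y ≤ m, H ⊆ U \ {q y} := fun y hy u hu => ⟨(HW u hu).1, fun e => qH y hy (e ▸ hu)⟩
  have D1 : ∀ x ≤ β, ∀ y, α ≤ y → y ≤ m → p x ≠ q y := fun x hx y h2 h3 e => by
    have xb : x ≠ β := fun z => bQ ⟨y, h3, by rw [← e, z]⟩
    have ya : y ≠ α := fun z => aP ⟨x, show x ≤ k by omega, by rw [e, z]⟩
    have ym : y ≠ m := fun z => by
      have := pp.inj x (by omega) k le_rfl (by rw [e, z, qm, pk])
      omega
    refine cut x (by omega) y (by omega) (by omega) e ?_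
    rw [← q0, ← pk]
    exact (pq.conn (Nat.zero_le α) am fun l _ hl => cq y h3 l (by omega) (by omega)).trans
      ((thru _ (cH' y h3) (cq y h3 α am (Ne.symm ya)) (e ▸ cp x (by omega) β bk (Ne.symm xb))).trans
      (pp.conn bk le_rfl fun l h4 hl => e ▸ cp x (by omega) l hl (by omega)))
  have D2 : ∀ x, β ≤ x → x ≤ k → ∀ y ≤ α, p x ≠ q y := fun x hx h2 y h3 e => by
    have xb : x ≠ β := fun z => bQ ⟨y, show y ≤ m by omega, by rw [← e, z]⟩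
    have ya : y ≠ α := fun z => aP ⟨x, h2, by rw [e, z]⟩
    have y0 : y ≠ 0 := fun z => by
      have := pp.inj x h2 0 (Nat.zero_le k) (by rw [e, z, q0, p0])
      omega
    have ym : y ≤ m := by omega
    refine cut x h2 y (by omega) (by omega) e ?_
    rw [← p0, ← qm]
    exact (pp.conn (Nat.zero_le β) bk fun l _ hl => e ▸ cp x h2 l (by omega) (by omega)).trans
      ((thru _ (cH' y ym) (cq y ym α am (Ne.symm ya)) (e ▸ cp x h2 β bk (Ne.symm xb))).symm.trans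
      (pq.conn am le_rfl fun l h4 hl => cq y ym l hl (by omega)))
  set AA := p '' Iio β ∪ q '' Iio α with hAA
  set AB := p '' Ioc β k ∪ q '' Ioc α m with hAB
  set Wr := {u | u ∈ U ∧ u ∉ H ∧ u ≠ q α ∧ u ≠ p β} with hWr
  have wp : ∀ x ≤ k, x ≠ β → p x ∈ Wr := fun x hx e =>
    ⟨bp.sub x hx, pH x hx, fun e' => aP ⟨x, hx, e'⟩, fun e' => e (pp.inj x hx β bk e')⟩
  have wq : ∀ y ≤ m, y ≠ α → q y ∈ Wr := fun y hy e =>
    ⟨bq.sub y hy, qH y hy, fun e' => e (pq.inj y hy α am e'), fun e' => bQ ⟨y, hy, e'⟩⟩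
  have wa : AA ⊆ Wr := by
    rintro _ (⟨x, hx, rfl⟩ | ⟨x, hx, rfl⟩)
    exacts [wp x (hx.le.trans bk) hx.ne, wq x (hx.le.trans am) hx.ne]
  have wb : AB ⊆ Wr := by
    rintro _ (⟨x, hx, rfl⟩ | ⟨x, hx, rfl⟩)
    exacts [wp x hx.2 hx.1.ne', wq x hx.2 hx.1.ne']
  have dab : ∀ u ∈ AA, u ∉ AB := by
    rintro _ (⟨x, hx, rfl⟩ | ⟨x, hx, rfl⟩) (⟨y, hy, e⟩ | ⟨y, hy, e⟩)
    · exact lt_asymm hy.1 (pp.inj y hy.2 x (hx.le.trans bk) e ▸ hx)
    · exact D1 x hx.le y hy.1.le hy.2 e.symm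
    · exact D2 y hy.1.le hy.2 x hx.le e
    · exact lt_asymm hy.1 (pq.inj y hy.2 x (hx.le.trans am) e ▸ hx)
  have hA : A ∈ AA := Or.inl ⟨0, b0, p0⟩
  have hB : B ∈ AB := Or.inl ⟨k, ⟨bk', le_rfl⟩, pk⟩
  have ca : Cn G AA := (pp.cn ordConnected_Iio fun x hx => hx.le.trans bk).union'
    (pq.cn ordConnected_Iio fun x hx => hx.le.trans am) ⟨0, b0, p0⟩ ⟨0, a0, q0⟩
  have cb : Cn G AB := (pp.cn ordConnected_Ioc fun x hx => hx.2).union'
    (pq.cn ordConnected_Ioc fun x hx => hx.2) ⟨k, ⟨bk', le_rfl⟩, pk⟩ ⟨m, ⟨am', le_rfl⟩, qm⟩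
  have sA0 : G.Adj s0 A := p0 ▸ sp 0 (Nat.zero_le k)
  have sA1 : G.Adj s1 A := q0 ▸ sq 0 (Nat.zero_le m)
  have sB0 : G.Adj s0 B := pk ▸ sp k le_rfl
  have sB1 : G.Adj s1 B := qm ▸ sq m le_rfl
  have Aa : SA G AA {q α} := ⟨_, Or.inr ⟨α - 1, show α - 1 < α by omega, rfl⟩, _, rfl, by
    have := pq.adj (α - 1) (by omega)
    rwa [show α - 1 + 1 = α by omega] at this⟩
  have Ab : SA G AA {p β} := ⟨_, Or.inl ⟨β - 1, show β - 1 < β by omega, rfl⟩, _, rfl, by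
    have := pp.adj (β - 1) (by omega)
    rwa [show β - 1 + 1 = β by omega] at this⟩
  have Ba : SA G AB {q α} := ⟨_, Or.inr ⟨α + 1, ⟨by omega, am'⟩, rfl⟩, _, rfl, (pq.adj α am').symm⟩
  have Bb : SA G AB {p β} := ⟨_, Or.inl ⟨β + 1, ⟨by omega, bk'⟩, rfl⟩, _, rfl, (pp.adj β bk').symm⟩
  have UU : H ∪ {q α, p β} ⊆ U := by
    rintro u (h | rfl | rfl)
    exacts [(HW u h).1, bq.sub α am, bp.sub β bk]
  have wU : ∀ u ∈ Wr, u ∉ H ∪ {q α, p β} := by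
    rintro u hu (h | h | h)
    exacts [hu.2.1 h, hu.2.2.1 h, hu.2.2.2 h]
  have d0 : Disjoint (AA ∪ {s0}) (H ∪ {q α, p β}) := disjoint_left.2 (by
    rintro u (h | rfl)
    exacts [wU u (wa h), fun h => n0 (UU h)])
  have d1 : Disjoint (AB ∪ {s1}) (H ∪ {q α, p β}) := disjoint_left.2 (by
    rintro u (h | rfl)
    exacts [wU u (wb h), fun h => n1 (UU h)])
  have d01 : Disjoint (AA ∪ {s0}) (AB ∪ {s1}) := disjoint_left.2 (by
    rintro u (h | rfl) (h' | h')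
    exacts [dab u h h', n1 (h' ▸ (wa h).1), n0 (wb h').1, ss.ne h'])
  have c1 : Cn G (AB ∪ {s1}) := cb.union (cn_single _) ⟨B, hB, _, rfl, sB1.symm⟩
  have fr' : Fr G (H ∪ {q α, p β}) (p β) (q α) (AA ∪ {s0}) (AB ∪ {s1}) (AB ∪ {s1}) :=
    ⟨fr.mac, Or.inr (Or.inr rfl), Or.inr (Or.inl rfl), ab.symm,
      (thru _ subset_union_left (Or.inr (Or.inl rfl)) (Or.inr (Or.inr rfl))).symm, d0, d1, d1, d01,
      d01, Or.inl rfl, ca.union (cn_single _) ⟨A, hA, _, rfl, sA0.symm⟩, c1, c1,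
      ⟨_, Or.inr rfl, _, rfl, sp β bk⟩, Aa.mono subset_union_left Subset.rfl,
      Bb.mono subset_union_left Subset.rfl, ⟨_, Or.inr rfl, _, rfl, sq α am⟩,
      ⟨_, Or.inr rfl, _, Or.inr rfl, ss⟩, ⟨_, Or.inr rfl, _, Or.inr rfl, ss⟩⟩
  obtain ⟨P, PU, hP, bd⟩ := tp G _ _ _ _ _ _ t
    (ncard_lt_ncard ⟨UU, fun h => wU A (wa hA) (h fr.hA)⟩ (toFinite _)) fr' (Or.inr (Or.inl rfl))
  have eP : (H ∪ {q α, p β}) \ P = H \ P := by
    refine Subset.antisymm ?_ (sdiff_subset_sdiff_left subset_union_left)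
    rintro u ⟨h | rfl | rfl, hu⟩
    exacts [⟨h, hu⟩, absurd hP.right hu, absurd hP.left hu]
  have z : ∀ v, tc G (H \ P) ((AB ∪ {s1}) \ (AB ∪ {s1})) v = 0 := fun v =>
    tc_neg fun ⟨_, h, _⟩ => h.2 h.1
  simp only [cnt, eP, z, add_zero] at bd
  have sep : ¬ Conn G Wr A B := fun h => by
    obtain ⟨u, w, k1, -, -, k2, k3⟩ := conn_exit h (dab A hA) hB
    have sub : ∀ u, Conn G (Wr \ AB) A u → u ∈ Wr \ AB := fun u hu => hu.mem ⟨wa hA, dab A hA⟩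
    have sa' : AA ⊆ Wr \ AB := fun w hw => ⟨wa hw, dab w hw⟩
    have sa : AA ⊆ {u | Conn G (Wr \ AB) A u} := fun u hu => (ca A hA u hu).mono sa'
    have s2 : H ∪ {p β} ⊆ H ∪ {q α, p β} := union_subset_union_right _ (subset_insert _ _)
    have ds : ∀ X ⊆ U, Disjoint X ({s0} ∪ {s1}) := fun X hX => disjoint_right.2 (by
      rintro u (rfl | rfl) h
      exacts [n0 (hX h), n1 (hX h)])
    exact k5 fr.mac {u | Conn G (Wr \ AB) A u} (H ∪ {p β}) AB {q α} ({s0} ∪ {s1}) (cn_comp _ _)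
      (cH.union (cn_single _) Hb) cb (cn_single _)
      ((cn_single _).union (cn_single _) (sa_single.2 ss))
      (disjoint_left.2 fun u hu h => wU u (sub u hu).1 (s2 h))
      (disjoint_left.2 fun u hu => (sub u hu).2)
      (disjoint_singleton_right.2 fun h => (sub _ h).1.2.2.1 rfl)
      (ds _ fun u hu => (sub u hu).1.1) (disjoint_right.2 fun u hu h => wU u (wb hu) (s2 h))
      (disjoint_singleton_right.2 fun h => h.elim (qH α am) ab) (ds _ (s2.trans UU))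
      (disjoint_singleton_right.2 fun h => (wb h).2.2.1 rfl) (ds _ fun u hu => (wb hu).1)
      (ds _ (singleton_subset_iff.2 (bq.sub α am))) (Ab.mono sa subset_union_right)
      ⟨u, k1, w, k2, k3⟩ (Aa.mono sa Subset.rfl) ⟨A, sa hA, _, Or.inl rfl, sA0.symm⟩
      (Bb.symm.mono subset_union_right Subset.rfl) (Ha.mono subset_union_left Subset.rfl)
      ⟨_, Or.inr rfl, _, Or.inl rfl, (sp β bk).symm⟩ Ba ⟨B, hB, _, Or.inl rfl, sB0.symm⟩
      ⟨_, rfl, _, Or.inr rfl, (sq α am).symm⟩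
  refine Cz.good (H := H) (P := P) (Wr := Wr) (a := q α) (b := p β) (AA := AA) (AB := AB)
    (Lp := p '' Icc 0 β) (Lq := q '' Icc α m)
    ⟨fr.mac, n0, n1, ss, p0 ▸ pp.hp (Nat.zero_le β) bk, qm ▸ (pq.hp am le_rfl).symm, hP, ab,
      fun u => Iff.rfl, ?_, ?_, wa, wb, fun u hu => (HW u hu).1, bq.sub α am, bp.sub β bk,
      qH α am, pH β bk, hA, hB, ca, cb, ?_, ?_, sB0, sA1, fun u hu h => ?_, fun u hu h => ?_,
      fun u hu x hx h => ?_, cH, Conn.refl _ _, Ha, Hb, fun u hu => PU hu, bd,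
      fun v hv => nbL fr' hP PU subset_union_left (qH α am) (pH β bk) cH Ha Hb hv (bd v hv).1,
      sep⟩ al tp
  · rintro _ ⟨x, hx, rfl⟩
    rcases hx.2.lt_or_eq with h | rfl
    exacts [Or.inl (Or.inl ⟨x, h, rfl⟩), Or.inr rfl]
  · rintro _ ⟨x, hx, rfl⟩
    rcases hx.1.lt_or_eq with h | rfl
    exacts [Or.inl (Or.inr ⟨x, ⟨h, hx.2⟩, rfl⟩), Or.inr rfl]
  · rintro _ ⟨x, hx, rfl⟩
    exact sp x (hx.2.trans bk)
  · rintro _ ⟨x, hx, rfl⟩
    exact sq x hx.2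
  · obtain ⟨x, hx, rfl, -⟩ := bp.l' u hu h
    rcases le_or_gt x β with h2 | h2
    exacts [Or.inl ⟨x, ⟨Nat.zero_le x, h2⟩, rfl⟩, Or.inr (Or.inl ⟨x, ⟨h2, hx⟩, rfl⟩)]
  · obtain ⟨x, hx, rfl, -⟩ := bq.l' u hu h
    rcases le_or_gt α x with h2 | h2
    exacts [Or.inl ⟨x, ⟨h2, hx⟩, rfl⟩, Or.inr (Or.inr ⟨x, h2, rfl⟩)]
  · have hs : SA G H {x} := ⟨u, hu, x, rfl, h⟩
    by_cases h2 : x ∈ p '' Iic k <;> by_cases h3 : x ∈ q '' Iic m
    · obtain ⟨x', hx', rfl⟩ := h2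
      obtain ⟨y, hy, e⟩ := h3
      rcases le_or_gt x' β with h4 | h4
      · exact Or.inr (Or.inl ⟨x', ⟨Nat.zero_le _, h4⟩, rfl⟩)
      rcases le_or_gt α y with h5 | h5
      · exact Or.inr (Or.inr ⟨y, ⟨h5, hy⟩, e⟩)
      · exact absurd e.symm (D2 x' h4.le hx' y h5.le)
    · obtain ⟨x', hx', rfl⟩ := h2
      exact Or.inr (Or.inl ⟨x', ⟨Nat.zero_le _, bmax x' hx' h3 hs⟩, rfl⟩)
    · obtain ⟨y, hy, rfl⟩ := h3
      exact Or.inr (Or.inr ⟨y, ⟨amin y hy h2 hs, hy⟩, rfl⟩)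
    · exact Or.inl (Conn.trans hu (Conn.adj h (HW u hu) ⟨hx, fun h => h.elim h2 h3⟩))

end Pool.Agent.MP_856573_co.H74
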